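import Pool.Agent.Helper82.CN.St

/-!
# Project CN, module PLA: planting an independent set
-/

set_option autoImplicit false

namespace Pool.Agent.Helper32.CN

open Finset Pool.Agent.Helper82.CN

/-- the expectation of a product -/
private lemma EE_prod_PLA {ι : Type} [Fintype ι] [DecidableEq ι] (p : ℝ) (φ : ι → Bool → ℝ) :
    EE p (fun ω : ι → Bool => ∏ i, φ i (ω i)) = ∏ i, ∑ b : Bool, bw p b * φ i b := by
  unfold EE
  have h := (Finset.prod_univ_sum (fun _ : ι => (univ : Finset Bool)) (fun i b => bw p b * φ i b))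
  simp only [Fintype.piFinset_univ] at h
  rw [h]
  exact Finset.sum_congr rfl fun ω _ => by rw [Finset.prod_mul_distrib]

open Classical in
/-- indicator that `S` is independent -/
private noncomputable def ind_PLA {n : ℕ} (S : Finset (Fin n)) (ω : Sym2 (Fin n) → Bool) : ℝ :=
  if ∀ u ∈ S, ∀ v ∈ S, u ≠ v → ω s(u, v) = false then 1 else 0

private lemma Xk_PLA (n k : ℕ) (ω : Sym2 (Fin n) → Bool) :
    Xk n k ω = ∑ S ∈ (univ : Finset (Fin n)).powersetCard k, ind_PLA S ω := by
  unfold Xk ind_PLA
  rw [Finset.card_filter]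
  push_cast
  rfl

private lemma ind_prob_PLA (p : ℝ) (n : ℕ) (S : Finset (Fin n)) :
    EE p (ind_PLA S) = (1 - p) ^ (S.card.choose 2) := by
  classical
  set T : Finset (Sym2 (Fin n)) := S.offDiag.image (fun q => s(q.1, q.2)) with hT
  have hcard : T.card = S.card.choose 2 := by
    rw [← Sym2.card_image_offDiag S]
    rfl
  have h1 : (ind_PLA S) = fun ω : Sym2 (Fin n) → Bool =>
      ∏ i, (fun (i : Sym2 (Fin n)) (b : Bool) => if i ∈ T then (if b = false then (1 : ℝ) else 0) else 1) i (ω i) := by
    funext ω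
    unfold ind_PLA
    by_cases h : ∀ u ∈ S, ∀ v ∈ S, u ≠ v → ω s(u, v) = false
    · rw [if_pos h]
      symm
      apply Finset.prod_eq_one
      intro i _
      by_cases hi : i ∈ T
      · simp only [hi, if_true]
        rw [hT, Finset.mem_image] at hi
        obtain ⟨⟨u, v⟩, huv, rfl⟩ := hi
        rw [Finset.mem_offDiag] at huv
        rw [if_pos (h u huv.1 v huv.2.1 huv.2.2)]
      · simp only [hi, if_false]
    · rw [if_neg h]
      symm
      push Not at h
      obtain ⟨u, hu, v, hv, huv, hω⟩ := h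
      apply Finset.prod_eq_zero (Finset.mem_univ s(u, v))
      have hi : s(u, v) ∈ T := by
        rw [hT, Finset.mem_image]
        exact ⟨(u, v), Finset.mem_offDiag.2 ⟨hu, hv, huv⟩, rfl⟩
      simp only [hi, if_true]
      rw [if_neg hω]
  rw [h1, EE_prod_PLA p (fun (i : Sym2 (Fin n)) (b : Bool) => if i ∈ T then (if b = false then (1 : ℝ) else 0) else 1)]
  have h2 : ∀ i : Sym2 (Fin n), (∑ b : Bool, bw p b *
      (if i ∈ T then (if b = false then (1 : ℝ) else 0) else 1)) = if i ∈ T then 1 - p else 1 := by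
    intro i
    by_cases hi : i ∈ T
    · simp [hi, bw]
    · simp [hi, bw]
  rw [Finset.prod_congr rfl (fun i _ => h2 i), Finset.prod_ite_mem, Finset.univ_inter,
    Finset.prod_const, hcard]

/-- one new colour for an independent set -/
private lemma ch_le_PLA {n m : ℕ} (S : Finset (Fin n)) (e : Fin m → Fin n)
    (he : ∀ v, v ∉ S → ∃ a, e a = v) (ω : Sym2 (Fin n) → Bool)
    (hS : ∀ u ∈ S, ∀ v ∈ S, u ≠ v → ω s(u, v) = false) :
    ch (gr ω) ≤ 1 + ch (gr (fun i => ω (Sym2.map e i))) := by
  classical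
  set G' := gr (fun i : Sym2 (Fin m) => ω (Sym2.map e i)) with hG'
  have hcol : G'.Colorable G'.chromaticNumber.toNat := by
    have h1 : G'.chromaticNumber ≠ ⊤ :=
      SimpleGraph.chromaticNumber_ne_top_iff_exists.2 ⟨_, G'.colorable_of_fintype⟩
    have h2 : (G'.chromaticNumber.toNat : ℕ∞) = G'.chromaticNumber := ENat.natCast_toNat h1
    exact SimpleGraph.chromaticNumber_le_iff_colorable.1 h2.ge
  set c := G'.chromaticNumber.toNat with hc
  obtain ⟨C'⟩ := hcol
  choose r hr using he
  have hG : (gr ω).Colorable (c + 1) := by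
    have C : (gr ω).Coloring (Option (Fin c)) :=
      SimpleGraph.Coloring.mk (fun v => if h : v ∈ S then none else some (C' (r v h))) (by
        intro u v huv heq
        obtain ⟨hne, hω⟩ := huv
        by_cases hu : u ∈ S
        · by_cases hv : v ∈ S
          · rw [hS u hu v hv hne] at hω
            exact Bool.noConfusion hω
          · rw [dif_pos hu, dif_neg hv] at heq
            exact absurd heq (by simp)
        · by_cases hv : v ∈ S
          · rw [dif_neg hu, dif_pos hv] at heq
            exact absurd heq (by simp)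
          · rw [dif_neg hu, dif_neg hv, Option.some.injEq] at heq
            refine C'.valid (v := r u hu) (w := r v hv) ?_ heq
            refine ⟨?_, ?_⟩
            · intro h
              apply hne
              rw [← hr u hu, ← hr v hv, h]
            · simp only [Sym2.map_mk]
              rw [hr u hu, hr v hv]
              exact hω)
    have h3 := C.colorable
    simpa using h3
  have h4 : (gr ω).chromaticNumber ≤ ((c + 1 : ℕ) : ℕ∞) :=
    SimpleGraph.chromaticNumber_le_iff_colorable.2 hG
  have h5 : (gr ω).chromaticNumber.toNat ≤ c + 1 := by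
    exact ENat.toNat_le_toNat h4 (ENat.natCast_ne_top _)
  unfold ch
  have h6 : ((gr ω).chromaticNumber.toNat : ℝ) ≤ ((c + 1 : ℕ) : ℝ) := by exact_mod_cast h5
  push_cast at h6
  linarith

private lemma term_PLA (p : ℝ) (n k : ℕ) (h0 : 0 ≤ p) (h1 : p ≤ 1) (S : Finset (Fin n))
    (hS : S.card = k) :
    EE p (fun ω : Sym2 (Fin n) → Bool => ind_PLA S ω * ch (gr ω)) ≤
      (1 - p) ^ (k.choose 2) * (1 + fn p (n - k)) := by
  classical
  have hc : (Sᶜ).card = n - k := by
    rw [Finset.card_compl, Fintype.card_fin, hS]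
  set e : Fin (n - k) → Fin n := fun a => (Sᶜ).orderEmbOfFin hc a with he
  have heinj : Function.Injective e := ((Sᶜ).orderEmbOfFin hc).injective
  have hemem : ∀ a, e a ∉ S := by
    intro a
    have := (Sᶜ).orderEmbOfFin_mem hc a
    rw [Finset.mem_compl] at this
    exact this
  have hesurj : ∀ v, v ∉ S → ∃ a, e a = v := by
    intro v hv
    have h2 : v ∈ Set.range ((Sᶜ).orderEmbOfFin hc) := by
      rw [Finset.range_orderEmbOfFin]
      simpa using hv
    exact h2
  set F : (Sym2 (Fin n) → Bool) → ℝ := ind_PLA S with hF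
  set G : (Sym2 (Fin n) → Bool) → ℝ :=
    fun ω => 1 + ch (gr (fun i => ω (Sym2.map e i))) with hG
  have hle : EE p (fun ω : Sym2 (Fin n) → Bool => F ω * ch (gr ω)) ≤
      EE p (fun ω => F ω * G ω) := by
    apply EE_mono h0 h1
    intro ω
    simp only [hF, ind_PLA]
    by_cases h : ∀ u ∈ S, ∀ v ∈ S, u ≠ v → ω s(u, v) = false
    · rw [if_pos h, one_mul, one_mul]
      exact ch_le_PLA S e hesurj ω h
    · rw [if_neg h, zero_mul, zero_mul]
  refine hle.trans (le_of_eq ?_)
  rw [EE_indep p (fun i => i ∈ S.sym2) F G]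
  · rw [hF, ind_prob_PLA, hS]
    congr 1
    rw [hG, EE_add, EE_const]
    congr 1
    unfold fn
    exact EE_marg p (Sym2.map e) (Sym2.map.injective heinj) (fun ω => ch (gr ω))
  · intro ω ω' h
    simp only [hF, ind_PLA]
    have h2 : (∀ u ∈ S, ∀ v ∈ S, u ≠ v → ω s(u, v) = false) ↔
        (∀ u ∈ S, ∀ v ∈ S, u ≠ v → ω' s(u, v) = false) := by
      constructor
      · intro h3 u hu v hv huv
        rw [← h s(u, v) (Finset.mk_mem_sym2_iff.2 ⟨hu, hv⟩)]
        exact h3 u hu v hv huv
      · intro h3 u hu v hv huv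
        rw [h s(u, v) (Finset.mk_mem_sym2_iff.2 ⟨hu, hv⟩)]
        exact h3 u hu v hv huv
    simp only [h2]
  · intro ω ω' h
    simp only [hG]
    have h2 : (fun i : Sym2 (Fin (n - k)) => ω (Sym2.map e i)) =
        fun i => ω' (Sym2.map e i) := by
      funext i
      apply h
      induction i using Sym2.ind with
      | _ a b =>
        rw [Sym2.map_mk, Finset.mk_mem_sym2_iff]
        exact fun h3 => hemem a h3.1
    rw [h2]

theorem tPLA : StPla := by
  intro p n k h0 h1 hk hkn
  refine ⟨?_, ?_⟩
  · have h2 : Xk n k = fun ω => ∑ S ∈ (univ : Finset (Fin n)).powersetCard k, ind_PLA S ω := by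
      funext ω
      exact Xk_PLA n k ω
    rw [h2, EE_sum]
    have h3 : ∀ S ∈ (univ : Finset (Fin n)).powersetCard k,
        EE p (ind_PLA S) = (1 - p) ^ (k.choose 2) := by
      intro S hS
      rw [ind_prob_PLA, (Finset.mem_powersetCard.1 hS).2]
    rw [Finset.sum_congr rfl h3, Finset.sum_const, Finset.card_powersetCard, Finset.card_univ,
      Fintype.card_fin, nsmul_eq_mul]
    rfl
  · have h2 : (fun ω : Sym2 (Fin n) → Bool => Xk n k ω * ch (gr ω)) =
        fun ω => ∑ S ∈ (univ : Finset (Fin n)).powersetCard k, ind_PLA S ω * ch (gr ω) := by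
      funext ω
      rw [Xk_PLA, Finset.sum_mul]
    rw [h2, EE_sum (univ.powersetCard k) p
      (fun (S : Finset (Fin n)) (ω : Sym2 (Fin n) → Bool) => ind_PLA S ω * ch (gr ω))]
    refine (Finset.sum_le_sum (fun S hS => term_PLA p n k h0 h1 S
      (Finset.mem_powersetCard.1 hS).2)).trans (le_of_eq ?_)
    rw [Finset.sum_const, Finset.card_powersetCard, Finset.card_univ,
      Fintype.card_fin, nsmul_eq_mul]
    unfold Mk
    ring

end Pool.Agent.Helper32.CN
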